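import Pool.Agent.Lib_helper22.Gap.SUP

/-! Module W: weighted bounds. -/

set_option autoImplicit false

open Finset Filter Topology

namespace Pool.Agent.Gap

namespace H22

/-- algebra of the commutator -/
lemma form_weighted {G : GapKernel} {N : ℕ} {eps : ℝ} {z : ℂ} {v e : ℤ → ℂ}
    (hs : G.Solves eps z N v e) (ζ : ℤ → ℝ) :
    form N (fun g => (ζ g : ℂ) * v g) (G.Lop eps z N (fun g => (ζ g : ℂ) * v g)) =
      ∑ g ∈ Icc (1 : ℤ) N, ((ζ g : ℂ)) ^ 2 * ((starRingEnd ℂ) (v g) * e g) +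
      ∑ g ∈ Icc (1 : ℤ) N, ∑ g' ∈ Icc (1 : ℤ) N, G.Kz 0 eps z g g' *
        ((ζ g : ℂ) * ((ζ g : ℂ) - (ζ g' : ℂ))) * ((starRingEnd ℂ) (v g) * v g') := by
  unfold form
  rw [← Finset.sum_add_distrib]
  refine Finset.sum_congr rfl fun g hg => ?_
  rw [← hs.2 g hg]
  unfold GapKernel.Lop GapKernel.Kap
  rw [map_mul, Complex.conj_ofReal]
  have h1 : ∑ g' ∈ Icc (1 : ℤ) N, G.Kz 0 eps z g g' * ((ζ g : ℂ) * ((ζ g : ℂ) - (ζ g' : ℂ))) *
        ((starRingEnd ℂ) (v g) * v g') =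
      (ζ g : ℂ) ^ 2 * (starRingEnd ℂ) (v g) * ∑ g' ∈ Icc (1 : ℤ) N, G.Kz 0 eps z g g' * v g' -
      (ζ g : ℂ) * (starRingEnd ℂ) (v g) *
        ∑ g' ∈ Icc (1 : ℤ) N, G.Kz 0 eps z g g' * ((ζ g' : ℂ) * v g') := by
    rw [Finset.mul_sum, Finset.mul_sum, ← Finset.sum_sub_distrib]
    exact Finset.sum_congr rfl fun g' _ => by ring
  rw [h1]
  ring

lemma norm_Q_le {G : GapKernel} {N : ℕ} {eps : ℝ} {z : ℂ} {v : ℤ → ℂ} (heps : 0 ≤ eps)
    (hz : ‖z‖ ≤ G.rho) (ζ B : ℤ → ℝ) (hB : ∀ g, 0 ≤ B g)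
    (hζ : ∀ g ∈ Icc (1 : ℤ) N, ∀ g' ∈ Icc (1 : ℤ) N, |g' - g| ≤ (G.R : ℤ) →
      |ζ g - ζ g'| * ‖v g'‖ ≤ B g') :
    ‖∑ g ∈ Icc (1 : ℤ) N, ∑ g' ∈ Icc (1 : ℤ) N, G.Kz 0 eps z g g' *
        ((ζ g : ℂ) * ((ζ g : ℂ) - (ζ g' : ℂ))) * ((starRingEnd ℂ) (v g) * v g')‖ ≤
    ∑ g ∈ Icc (1 : ℤ) N, ∑ g' ∈ Icc (1 : ℤ) N, G.kk (g' - g) *
      (‖(ζ g' : ℂ) * v g' - (ζ g : ℂ) * v g‖ * B g') +
    (1 / 2) * ∑ g ∈ Icc (1 : ℤ) N, ∑ g' ∈ Icc (1 : ℤ) N, G.kk (g' - g) * (B g * B g') := by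
  set s := Icc (1 : ℤ) N with hs
  set F : ℤ → ℤ → ℂ := fun g g' => G.Kz 0 eps z g g' *
        ((ζ g : ℂ) * ((ζ g : ℂ) - (ζ g' : ℂ))) * ((starRingEnd ℂ) (v g) * v g') with hF
  have h1 : ∑ g ∈ s, ∑ g' ∈ s, F g g' = (1 / 2 : ℂ) * ∑ g ∈ s, ∑ g' ∈ s, (F g g' + F g' g) := by
    have h2 : ∑ g ∈ s, ∑ g' ∈ s, F g' g = ∑ g ∈ s, ∑ g' ∈ s, F g g' := Finset.sum_comm
    simp only [Finset.sum_add_distrib]
    rw [h2]
    ring
  have h3 : ∀ g ∈ s, ∀ g' ∈ s, ‖F g g' + F g' g‖ ≤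
      2 * (G.kk (g' - g) * (‖(ζ g' : ℂ) * v g' - (ζ g : ℂ) * v g‖ * B g')) +
        G.kk (g' - g) * (B g * B g') := by
    intro g hg g' hg'
    have h4 : F g g' + F g' g = G.Kz 0 eps z g g' * (((ζ g - ζ g' : ℝ) : ℂ) *
        ((starRingEnd ℂ) ((ζ g : ℂ) * v g - (ζ g' : ℂ) * v g') * v g' +
          (starRingEnd ℂ) (v g') * ((ζ g' : ℂ) * v g' - (ζ g : ℂ) * v g) +
          ((ζ g - ζ g' : ℝ) : ℂ) * ((starRingEnd ℂ) (v g') * v g))) := by
      simp only [hF]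
      rw [G.Kz_symm 0 eps z g' g, map_sub, map_mul, map_mul, Complex.conj_ofReal,
        Complex.conj_ofReal]
      push_cast
      ring
    rw [h4, norm_mul, norm_mul]
    have hkz : ‖G.Kz 0 eps z g g'‖ ≤ G.kk (g' - g) := by
      rw [hs, Finset.mem_Icc] at hg hg'
      exact (G.norm_Kz_le heps hz g g' (by omega) (by omega)).trans (G.Kc_le g g')
    have hkk := G.kk_nonneg (g' - g)
    rcases le_or_gt (|g' - g|) (G.R : ℤ) with hR | hR
    · have ha := hζ g hg g' hg' hR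
      have ha' := hζ g' hg' g hg (by rw [abs_sub_comm]; exact hR)
      rw [Complex.norm_real, Real.norm_eq_abs]
      have h5 : ‖(starRingEnd ℂ) ((ζ g : ℂ) * v g - (ζ g' : ℂ) * v g') * v g' +
          (starRingEnd ℂ) (v g') * ((ζ g' : ℂ) * v g' - (ζ g : ℂ) * v g) +
          ((ζ g - ζ g' : ℝ) : ℂ) * ((starRingEnd ℂ) (v g') * v g)‖ ≤
          2 * ‖(ζ g' : ℂ) * v g' - (ζ g : ℂ) * v g‖ * ‖v g'‖ +
            |ζ g - ζ g'| * (‖v g'‖ * ‖v g‖) := by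
        refine (norm_add_le _ _).trans (add_le_add ((norm_add_le _ _).trans ?_) ?_)
        · rw [norm_mul, norm_mul, RCLike.norm_conj, RCLike.norm_conj,
            norm_sub_rev ((ζ g : ℂ) * v g)]
          linarith
        · rw [norm_mul, norm_mul, RCLike.norm_conj, Complex.norm_real, Real.norm_eq_abs]
      have h6 : |ζ g - ζ g'| * ‖(starRingEnd ℂ) ((ζ g : ℂ) * v g - (ζ g' : ℂ) * v g') * v g' +
          (starRingEnd ℂ) (v g') * ((ζ g' : ℂ) * v g' - (ζ g : ℂ) * v g) +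
          ((ζ g - ζ g' : ℝ) : ℂ) * ((starRingEnd ℂ) (v g') * v g)‖ ≤
          2 * (‖(ζ g' : ℂ) * v g' - (ζ g : ℂ) * v g‖ * B g') + B g * B g' := by
        refine (mul_le_mul_of_nonneg_left h5 (abs_nonneg _)).trans ?_
        have h7 : ‖(ζ g' : ℂ) * v g' - (ζ g : ℂ) * v g‖ * (|ζ g - ζ g'| * ‖v g'‖) ≤
            ‖(ζ g' : ℂ) * v g' - (ζ g : ℂ) * v g‖ * B g' :=
          mul_le_mul_of_nonneg_left ha (norm_nonneg _)
        have h8 : (|ζ g - ζ g'| * ‖v g‖) * (|ζ g - ζ g'| * ‖v g'‖) ≤ B g * B g' := by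
          refine mul_le_mul ?_ ha (mul_nonneg (abs_nonneg _) (norm_nonneg _)) (hB g)
          rw [abs_sub_comm]
          exact ha'
        nlinarith
      calc ‖G.Kz 0 eps z g g'‖ * (|ζ g - ζ g'| * ‖(starRingEnd ℂ) ((ζ g : ℂ) * v g - (ζ g' : ℂ) * v g') * v g' +
          (starRingEnd ℂ) (v g') * ((ζ g' : ℂ) * v g' - (ζ g : ℂ) * v g) +
          ((ζ g - ζ g' : ℝ) : ℂ) * ((starRingEnd ℂ) (v g') * v g)‖)
          ≤ G.kk (g' - g) * (2 * (‖(ζ g' : ℂ) * v g' - (ζ g : ℂ) * v g‖ * B g') + B g * B g') :=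
            mul_le_mul hkz h6 (mul_nonneg (abs_nonneg _) (norm_nonneg _)) hkk
        _ = _ := by ring
    · have h0 : G.kk (g' - g) = 0 := G.kk_range _ hR
      have h0' : ‖G.Kz 0 eps z g g'‖ = 0 := le_antisymm (by rw [← h0]; exact hkz) (norm_nonneg _)
      rw [h0', h0]
      simp
  have h9 : (∑ g ∈ s, ∑ g' ∈ s, G.Kz 0 eps z g g' *
        ((ζ g : ℂ) * ((ζ g : ℂ) - (ζ g' : ℂ))) * ((starRingEnd ℂ) (v g) * v g')) =
      ∑ g ∈ s, ∑ g' ∈ s, F g g' := rfl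
  rw [h9, h1, norm_mul]
  have h10 : ‖∑ g ∈ s, ∑ g' ∈ s, (F g g' + F g' g)‖ ≤
      ∑ g ∈ s, ∑ g' ∈ s, (2 * (G.kk (g' - g) * (‖(ζ g' : ℂ) * v g' - (ζ g : ℂ) * v g‖ * B g')) +
        G.kk (g' - g) * (B g * B g')) :=
    (norm_sum_le _ _).trans (Finset.sum_le_sum fun g hg =>
      (norm_sum_le _ _).trans (Finset.sum_le_sum fun g' hg' => h3 g hg g' hg'))
  have h11 : ‖(1 / 2 : ℂ)‖ = 1 / 2 := by norm_num
  rw [h11]
  refine (mul_le_mul_of_nonneg_left h10 (by norm_num)).trans (le_of_eq ?_)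
  simp only [Finset.sum_add_distrib, ← Finset.mul_sum]
  ring

/-- weighted coercivity -/
lemma weighted {G : GapKernel} {c : ℝ} (hc : 0 < c) (hC : Coer G c) {R' N : ℕ} {eps : ℝ} {z : ℂ}
    {v e : ℤ → ℂ} (heps : 0 ≤ eps) (hz : ‖z‖ ≤ G.rho) (hs : G.Solves eps z N v e)
    (he : ∀ g : ℤ, (R' : ℤ) < g → e g = 0) (ζ B : ℤ → ℝ) (hB : ∀ g, 0 ≤ B g)
    (hζ : ∀ g ∈ Icc (1 : ℤ) N, ∀ g' ∈ Icc (1 : ℤ) N, |g' - g| ≤ (G.R : ℤ) →
      |ζ g - ζ g'| * ‖v g'‖ ≤ B g') :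
    c / 2 * (‖(G.rho : ℂ) - z‖ * nsq N (fun g => (ζ g : ℂ) * v g) +
        En N (fun g => (ζ g : ℂ) * v g) + Pot eps N (fun g => (ζ g : ℂ) * v g)) ≤
      ∑ g ∈ Icc (1 : ℤ) R', ζ g ^ 2 * (‖v g‖ * ‖e g‖) +
        ((G.R : ℝ) ^ 2 / (2 * c) + 1 / 2) * ∑ g ∈ Icc (1 : ℤ) N, B g ^ 2 := by
  set V : ℤ → ℂ := fun g => (ζ g : ℂ) * v g with hV
  have hsupp : Supp N V := fun g hg => by simp only [hV]; rw [hs.1 g hg, mul_zero]
  have h1 := hC N eps z V heps hz hsupp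
  rw [form_weighted hs ζ] at h1
  have h2 := form_solves_le (N := N) (v := v) he ζ
  have h3 := norm_Q_le heps hz ζ B hB hζ
  have hR : (1 : ℝ) ≤ G.R := by exact_mod_cast G.R_pos
  have h4 : ∑ g ∈ Icc (1 : ℤ) N, ∑ g' ∈ Icc (1 : ℤ) N, G.kk (g' - g) *
      (‖(ζ g' : ℂ) * v g' - (ζ g : ℂ) * v g‖ * B g') ≤
      c / 2 * En N V + (G.R : ℝ) ^ 2 / (2 * c) * ∑ g ∈ Icc (1 : ℤ) N, B g ^ 2 := by
    have h5 : ∀ g g' : ℤ, G.kk (g' - g) * (‖(ζ g' : ℂ) * v g' - (ζ g : ℂ) * v g‖ * B g') ≤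
        c / (2 * (G.R : ℝ) ^ 2) * (G.kk (g' - g) * ‖V g' - V g‖ ^ 2) +
        (G.R : ℝ) ^ 2 / (2 * c) * (G.kk (g' - g) * B g' ^ 2) := by
      intro g g'
      have h6 : ‖(ζ g' : ℂ) * v g' - (ζ g : ℂ) * v g‖ * B g' ≤
          c / (2 * (G.R : ℝ) ^ 2) * ‖V g' - V g‖ ^ 2 + (G.R : ℝ) ^ 2 / (2 * c) * B g' ^ 2 := by
        have h7 : (0 : ℝ) ≤ (c * ‖V g' - V g‖ - (G.R : ℝ) ^ 2 * B g') ^ 2 := sq_nonneg _
        have h8 : c / (2 * (G.R : ℝ) ^ 2) * ‖V g' - V g‖ ^ 2 + (G.R : ℝ) ^ 2 / (2 * c) * B g' ^ 2 -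
            ‖V g' - V g‖ * B g' =
            (c * ‖V g' - V g‖ - (G.R : ℝ) ^ 2 * B g') ^ 2 / (2 * c * (G.R : ℝ) ^ 2) := by
          have : (G.R : ℝ) ≠ 0 := by linarith
          field_simp
          ring
        have h9 : 0 ≤ (c * ‖V g' - V g‖ - (G.R : ℝ) ^ 2 * B g') ^ 2 / (2 * c * (G.R : ℝ) ^ 2) := by
          positivity
        have h10 : ‖(ζ g' : ℂ) * v g' - (ζ g : ℂ) * v g‖ = ‖V g' - V g‖ := rfl
        rw [h10]
        linarith
      have := mul_le_mul_of_nonneg_left h6 (G.kk_nonneg (g' - g))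
      refine this.trans (le_of_eq ?_)
      ring
    calc ∑ g ∈ Icc (1 : ℤ) N, ∑ g' ∈ Icc (1 : ℤ) N, G.kk (g' - g) *
          (‖(ζ g' : ℂ) * v g' - (ζ g : ℂ) * v g‖ * B g')
        ≤ ∑ g ∈ Icc (1 : ℤ) N, ∑ g' ∈ Icc (1 : ℤ) N,
          (c / (2 * (G.R : ℝ) ^ 2) * (G.kk (g' - g) * ‖V g' - V g‖ ^ 2) +
            (G.R : ℝ) ^ 2 / (2 * c) * (G.kk (g' - g) * B g' ^ 2)) :=
          Finset.sum_le_sum fun g _ => Finset.sum_le_sum fun g' _ => h5 g g'
      _ = c / (2 * (G.R : ℝ) ^ 2) * ∑ g ∈ Icc (1 : ℤ) N, ∑ g' ∈ Icc (1 : ℤ) N,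
            G.kk (g' - g) * ‖V g' - V g‖ ^ 2 +
          (G.R : ℝ) ^ 2 / (2 * c) * ∑ g ∈ Icc (1 : ℤ) N, ∑ g' ∈ Icc (1 : ℤ) N,
            G.kk (g' - g) * B g' ^ 2 := by
          simp only [Finset.sum_add_distrib, Finset.mul_sum]
      _ ≤ c / (2 * (G.R : ℝ) ^ 2) * ((G.R : ℝ) ^ 2 * En N V) +
          (G.R : ℝ) ^ 2 / (2 * c) * ∑ g ∈ Icc (1 : ℤ) N, B g ^ 2 := by
          refine add_le_add (mul_le_mul_of_nonneg_left (G.sum_kk_diff hsupp) (by positivity))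
            (mul_le_mul_of_nonneg_left ?_ (by positivity))
          rw [Finset.sum_comm]
          refine Finset.sum_le_sum fun g' _ => ?_
          rw [← Finset.sum_mul]
          have := G.sum_kk_shift' g' (Icc (1 : ℤ) N)
          nlinarith [sq_nonneg (B g')]
      _ = _ := by
          have : (G.R : ℝ) ≠ 0 := by linarith
          field_simp
  have h5 := G.schur_kk (Icc (1 : ℤ) N) B
  have hn := nsq_nonneg N V
  have hE := En_nonneg N V
  have hP := Pot_nonneg heps N V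
  have hδ := mul_nonneg (norm_nonneg ((G.rho : ℂ) - z)) hn
  have h6 := (h1.trans (norm_add_le _ _)).trans (add_le_add h2 (h3.trans
    (add_le_add h4 (mul_le_mul_of_nonneg_left h5 (by norm_num)))))
  have h7 : 0 ≤ c * (‖(G.rho : ℂ) - z‖ * nsq N V) := mul_nonneg hc.le hδ
  have h8 : 0 ≤ c * Pot eps N V := mul_nonneg hc.le hP
  have h9 : 0 ≤ c * En N V := mul_nonneg hc.le hE
  nlinarith

lemma delta_le {G : GapKernel} {z : ℂ} (hz : ‖z‖ ≤ G.rho) : ‖(G.rho : ℂ) - z‖ ≤ 2 * G.rho := by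
  refine (norm_sub_le _ _).trans ?_
  rw [Complex.norm_real, Real.norm_eq_abs, abs_of_pos G.rho_pos]
  linarith

lemma source_le {R' : ℕ} {v e : ℤ → ℂ} {Cs : ℝ} (hv : ∀ g, ‖v g‖ ≤ Cs * l1 R' e)
    (ζ : ℤ → ℝ) (Z : ℝ) (hZ : ∀ g ∈ Icc (1 : ℤ) R', ζ g ^ 2 ≤ Z) :
    ∑ g ∈ Icc (1 : ℤ) R', ζ g ^ 2 * (‖v g‖ * ‖e g‖) ≤ Z * Cs * l1 R' e ^ 2 := by
  have hl := l1_nonneg R' e
  have h1 : Z * Cs * l1 R' e ^ 2 = ∑ g ∈ Icc (1 : ℤ) R', Z * (Cs * l1 R' e * ‖e g‖) := by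
    rw [← Finset.mul_sum, ← Finset.mul_sum, ← l1]
    ring
  rw [h1]
  refine Finset.sum_le_sum fun g hg => ?_
  have hZ0 : 0 ≤ Z := (sq_nonneg _).trans (hZ g hg)
  exact mul_le_mul (hZ g hg) (mul_le_mul_of_nonneg_right (hv g) (norm_nonneg _))
    (mul_nonneg (norm_nonneg _) (norm_nonneg _)) hZ0

lemma card_le (N : ℕ) (Y : ℝ) (hY : 0 ≤ Y) :
    (((Icc (1 : ℤ) N).filter (fun g : ℤ => (g : ℝ) ≤ Y)).card : ℝ) ≤ Y := by
  have h1 : (Icc (1 : ℤ) N).filter (fun g : ℤ => (g : ℝ) ≤ Y) ⊆ Icc (1 : ℤ) ⌊Y⌋ := by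
    intro g hg
    rw [Finset.mem_filter, Finset.mem_Icc] at hg
    rw [Finset.mem_Icc]
    exact ⟨hg.1.1, Int.le_floor.mpr hg.2⟩
  have h2 := Finset.card_le_card h1
  rw [Int.card_Icc] at h2
  have h3 : 0 ≤ ⌊Y⌋ := Int.floor_nonneg.mpr hY
  have h4 : ((⌊Y⌋ + 1 - 1).toNat : ℝ) ≤ Y := by
    rw [add_sub_cancel_right]
    have : ((⌊Y⌋.toNat : ℤ) : ℝ) = (⌊Y⌋ : ℝ) := by rw [Int.toNat_of_nonneg h3]
    have h5 : ((⌊Y⌋.toNat : ℕ) : ℝ) = (⌊Y⌋ : ℝ) := by exact_mod_cast this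
    rw [h5]
    exact Int.floor_le Y
  exact (by exact_mod_cast h2 : (((Icc (1 : ℤ) N).filter (fun g : ℤ => (g : ℝ) ≤ Y)).card : ℝ) ≤
    ((⌊Y⌋ + 1 - 1).toNat : ℝ)).trans h4

/-- sum over the small gaps of a bounded function -/
lemma sum_small_le (N : ℕ) (Y M : ℝ) (hY : 0 ≤ Y) (f : ℤ → ℝ) (hf : ∀ g, f g ≤ M) (hM : 0 ≤ M) :
    ∑ g ∈ Icc (1 : ℤ) N, (if (g : ℝ) ≤ Y then f g else 0) ≤ Y * M := by
  rw [← Finset.sum_filter]
  calc ∑ g ∈ (Icc (1 : ℤ) N).filter (fun g : ℤ => (g : ℝ) ≤ Y), f g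
      ≤ ∑ g ∈ (Icc (1 : ℤ) N).filter (fun g : ℤ => (g : ℝ) ≤ Y), M :=
        Finset.sum_le_sum fun g _ => hf g
    _ = (((Icc (1 : ℤ) N).filter (fun g : ℤ => (g : ℝ) ≤ Y)).card : ℝ) * M := by
        rw [Finset.sum_const, nsmul_eq_mul]
    _ ≤ Y * M := mul_le_mul_of_nonneg_right (card_le N Y hY) hM

end H22

open H22 in
/-- MODULE W -/
theorem W (hC : C_Stmt) : W_Stmt := by
  intro G R'
  obtain ⟨c, hc, hCo⟩ := hC G
  obtain ⟨Cs, hCs, hSUP⟩ := SUP hC G R'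
  have hCoer : Coer G c := hCo
  have hR : (1 : ℝ) ≤ G.R := by exact_mod_cast G.R_pos
  have hρ := G.rho_pos
  set r : ℝ := (G.R : ℝ) with hr
  set r' : ℝ := (R' : ℝ) with hr'
  have hr0' : 0 ≤ r' := Nat.cast_nonneg _
  set q : ℝ := Real.sqrt (2 * G.rho) with hq
  have hq0 : 0 ≤ q := Real.sqrt_nonneg _
  set C₁ : ℝ := r ^ 2 / (2 * c) + 1 / 2 with hC₁
  have hC₁0 : 0 ≤ C₁ := by positivity
  set K0 : ℝ := Cs ^ 2 + (2 / c) * (r' ^ 2 * Cs * q + C₁ * (r ^ 2 * (1 + r * q) * Cs ^ 2)) with hK0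
  have hK00 : 0 ≤ K0 := by positivity
  set K1 : ℝ := (2 / c) * (r' ^ 2 * Cs * q + C₁ * (r ^ 2 * K0)) with hK1
  have hK10 : 0 ≤ K1 := by positivity
  set K2 : ℝ := (2 / c) * (r' ^ 4 * Cs * (q * (2 * G.rho)) + C₁ * ((r * (r + 2)) ^ 2 * K1)) with hK2
  have hK20 : 0 ≤ K2 := by positivity
  refine ⟨K0 + K1 + K2 + 1, by positivity, ?_⟩
  intro N eps z v e heps hz hzne hs he
  obtain ⟨hv, -⟩ := hSUP N eps z v e heps hz hs he
  have hl := l1_nonneg R' e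
  set δ : ℝ := ‖(G.rho : ℂ) - z‖ with hδ
  have hδ0 : 0 < δ := norm_pos_iff.mpr (sub_ne_zero.mpr (Ne.symm hzne))
  have hδ2 : δ ≤ 2 * G.rho := delta_le hz
  set A : ℝ := l1 R' e ^ 2 with hA
  have hA0 : 0 ≤ A := sq_nonneg _
  set t : ℝ := Real.sqrt δ with ht
  have ht0 : 0 < t := Real.sqrt_pos.mpr hδ0
  have htt : t * t = δ := Real.mul_self_sqrt hδ0.le
  set X : ℝ := 1 / t with hX
  have hX0 : 0 < X := by positivity
  have hXt : X * t = 1 := by rw [hX]; field_simp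
  have htq : t ≤ q := Real.sqrt_le_sqrt hδ2
  have h1q : 1 ≤ q * X := by
    rw [← hXt]
    nlinarith
  have hvsq : ∀ g, ‖v g‖ ^ 2 ≤ Cs ^ 2 * A := by
    intro g
    have := pow_le_pow_left₀ (norm_nonneg _) (hv g) 2
    rw [mul_pow] at this
    exact this
  -- k = 0
  have hk0 : nsq N v ≤ K0 * A * X := by
    set ζ : ℤ → ℝ := fun g => min (t * g) 1 with hζ
    set B : ℤ → ℝ := fun g => if (g : ℝ) ≤ X + r then t * r * ‖v g‖ else 0 with hB
    have hB0 : ∀ g, 0 ≤ B g := by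
      intro g
      simp only [hB]
      split_ifs
      · positivity
      · exact le_rfl
    have hζB : ∀ g ∈ Icc (1 : ℤ) N, ∀ g' ∈ Icc (1 : ℤ) N, |g' - g| ≤ (G.R : ℤ) →
        |ζ g - ζ g'| * ‖v g'‖ ≤ B g' := by
      intro g _ g' _ hgg
      have hgg' : |(g' : ℝ) - g| ≤ r := by rw [hr]; exact_mod_cast hgg
      simp only [hB]
      split_ifs with h
      · refine mul_le_mul_of_nonneg_right ?_ (norm_nonneg _)
        simp only [hζ]
        refine (abs_min_sub_min_le_max _ _ _ _).trans ?_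
        rw [sub_self, abs_zero, max_eq_left (abs_nonneg _), ← mul_sub, abs_mul, abs_of_pos ht0,
          abs_sub_comm]
        exact mul_le_mul_of_nonneg_left hgg' ht0.le
      · have h1 : X ≤ (g' : ℝ) := by
          have : 0 ≤ r := by linarith
          linarith
        have h2 : X ≤ (g : ℝ) := by
          have := (abs_le.mp hgg').2
          linarith
        have h3 : ∀ y : ℝ, X ≤ y → min (t * y) 1 = 1 := by
          intro y hy
          refine min_eq_right ?_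
          rw [← hXt]
          nlinarith
        simp only [hζ]
        rw [h3 _ h1, h3 _ h2, sub_self, abs_zero, zero_mul]
    have hw := weighted hc hCoer heps hz hs he ζ B hB0 hζB
    rw [← hδ, ← hr, ← hC₁] at hw
    have hsrc := source_le hv ζ (δ * r' ^ 2) (by
      intro g hg
      rw [Finset.mem_Icc] at hg
      have hg1 : (1 : ℝ) ≤ g := by exact_mod_cast hg.1
      have hg2 : (g : ℝ) ≤ r' := by rw [hr']; exact_mod_cast hg.2
      have h1 : 0 ≤ ζ g := le_min (by positivity) zero_le_one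
      have h2 : ζ g ≤ t * r' := (min_le_left _ _).trans (mul_le_mul_of_nonneg_left hg2 ht0.le)
      calc ζ g ^ 2 ≤ (t * r') ^ 2 := pow_le_pow_left₀ h1 h2 2
        _ = δ * r' ^ 2 := by rw [← htt]; ring)
    have hBs : ∑ g ∈ Icc (1 : ℤ) N, B g ^ 2 ≤ (X + r) * (δ * r ^ 2 * (Cs ^ 2 * A)) := by
      have h1 : ∀ g : ℤ, B g ^ 2 = if (g : ℝ) ≤ X + r then (t * r * ‖v g‖) ^ 2 else 0 := by
        intro g
        simp only [hB]
        split_ifs
        · rfl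
        · norm_num
      simp only [h1]
      refine sum_small_le N (X + r) _ (by positivity) (fun g => (t * r * ‖v g‖) ^ 2) ?_ (by positivity)
      intro g
      have : (t * r * ‖v g‖) ^ 2 = δ * r ^ 2 * ‖v g‖ ^ 2 := by rw [← htt]; ring
      rw [this]
      exact mul_le_mul_of_nonneg_left (hvsq g) (by positivity)
    set V : ℤ → ℂ := fun g => (ζ g : ℂ) * v g with hV
    have hE := En_nonneg N V
    have hP := Pot_nonneg heps N V
    have hn := nsq_nonneg N V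
    have h1 : c / 2 * (δ * nsq N V) ≤ δ * (r' ^ 2 * Cs * A + C₁ * ((X + r) * (r ^ 2 * (Cs ^ 2 * A)))) := by
      have h2 : c / 2 * (δ * nsq N V) ≤ c / 2 * (δ * nsq N V + En N V + Pot eps N V) :=
        mul_le_mul_of_nonneg_left (by linarith) (by positivity)
      have h3 := mul_le_mul_of_nonneg_left hBs hC₁0
      calc c / 2 * (δ * nsq N V) ≤ δ * r' ^ 2 * Cs * l1 R' e ^ 2 +
            C₁ * ((X + r) * (δ * r ^ 2 * (Cs ^ 2 * A))) := by linarith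
        _ = _ := by rw [← hA]; ring
    have h2 : c / 2 * nsq N V ≤ r' ^ 2 * Cs * A + C₁ * ((X + r) * (r ^ 2 * (Cs ^ 2 * A))) := by
      have : δ * (c / 2 * nsq N V) ≤
          δ * (r' ^ 2 * Cs * A + C₁ * ((X + r) * (r ^ 2 * (Cs ^ 2 * A)))) := by linarith
      exact le_of_mul_le_mul_left this hδ0
    have h3 : r' ^ 2 * Cs * A + C₁ * ((X + r) * (r ^ 2 * (Cs ^ 2 * A))) ≤
        (r' ^ 2 * Cs * q + C₁ * (r ^ 2 * (1 + r * q) * Cs ^ 2)) * A * X := by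
      have h4 : r' ^ 2 * Cs * A * 1 ≤ r' ^ 2 * Cs * A * (q * X) :=
        mul_le_mul_of_nonneg_left h1q (by positivity)
      have h5 : C₁ * ((X + r * 1) * (r ^ 2 * (Cs ^ 2 * A))) ≤
          C₁ * ((X + r * (q * X)) * (r ^ 2 * (Cs ^ 2 * A))) := by
        have : r * 1 ≤ r * (q * X) := mul_le_mul_of_nonneg_left h1q (by linarith)
        exact mul_le_mul_of_nonneg_left (mul_le_mul_of_nonneg_right (by linarith) (by positivity)) hC₁0
      calc _ = r' ^ 2 * Cs * A * 1 + C₁ * ((X + r * 1) * (r ^ 2 * (Cs ^ 2 * A))) := by ring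
        _ ≤ r' ^ 2 * Cs * A * (q * X) + C₁ * ((X + r * (q * X)) * (r ^ 2 * (Cs ^ 2 * A))) :=
          add_le_add h4 h5
        _ = _ := by ring
    have h4 : nsq N V ≤ (2 / c) * ((r' ^ 2 * Cs * q + C₁ * (r ^ 2 * (1 + r * q) * Cs ^ 2)) * A * X) := by
      have h5 := mul_le_mul_of_nonneg_left (h2.trans h3) (by positivity : 0 ≤ 2 / c)
      have h6 : 2 / c * (c / 2 * nsq N V) = nsq N V := by field_simp
      rw [h6] at h5
      exact h5
    have h5 : nsq N v ≤ X * (Cs ^ 2 * A) + nsq N V := by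
      have h6 := sum_small_le N X (Cs ^ 2 * A) hX0.le (fun g => ‖v g‖ ^ 2) hvsq (by positivity)
      refine le_trans ?_ (add_le_add_left h6 _)
      unfold nsq
      rw [← Finset.sum_add_distrib]
      refine Finset.sum_le_sum fun g hg => ?_
      split_ifs with h
      · have := sq_nonneg ‖V g‖
        linarith
      · have h7 : ζ g = 1 := by
          simp only [hζ]
          refine min_eq_right ?_
          rw [← hXt]
          nlinarith
        simp only [hV]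
        rw [h7]
        simp
    calc nsq N v ≤ X * (Cs ^ 2 * A) + (2 / c) * ((r' ^ 2 * Cs * q + C₁ * (r ^ 2 * (1 + r * q) * Cs ^ 2)) * A * X) := by
          linarith
      _ = K0 * A * X := by rw [hK0]; ring
  -- k = 1
  have hk1 : δ * nsq N (mulg 1 v) + En N (mulg 1 v) + Pot eps N (mulg 1 v) ≤ K1 * A * X := by
    set ζ : ℤ → ℝ := fun g => (g : ℝ) with hζ
    set B : ℤ → ℝ := fun g => r * ‖v g‖ with hB
    have hB0 : ∀ g, 0 ≤ B g := by
      intro g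
      simp only [hB]
      positivity
    have hζB : ∀ g ∈ Icc (1 : ℤ) N, ∀ g' ∈ Icc (1 : ℤ) N, |g' - g| ≤ (G.R : ℤ) →
        |ζ g - ζ g'| * ‖v g'‖ ≤ B g' := by
      intro g _ g' _ hgg
      have hgg' : |(g' : ℝ) - g| ≤ r := by rw [hr]; exact_mod_cast hgg
      simp only [hB, hζ]
      rw [abs_sub_comm]
      exact mul_le_mul_of_nonneg_right hgg' (norm_nonneg _)
    have hw := weighted hc hCoer heps hz hs he ζ B hB0 hζB
    rw [← hδ, ← hr, ← hC₁] at hw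
    have hsrc := source_le hv ζ (r' ^ 2) (by
      intro g hg
      rw [Finset.mem_Icc] at hg
      have hg1 : (1 : ℝ) ≤ g := by exact_mod_cast hg.1
      have hg2 : (g : ℝ) ≤ r' := by rw [hr']; exact_mod_cast hg.2
      have hg0 : (0 : ℝ) ≤ g := by linarith
      exact pow_le_pow_left₀ hg0 hg2 2)
    rw [← hA] at hsrc
    have hBs : ∑ g ∈ Icc (1 : ℤ) N, B g ^ 2 = r ^ 2 * nsq N v := by
      unfold nsq
      rw [Finset.mul_sum]
      exact Finset.sum_congr rfl fun g _ => by simp only [hB]; ring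
    rw [hBs] at hw
    have hV : (fun g => (ζ g : ℂ) * v g) = mulg 1 v := by
      funext g
      simp only [hζ, mulg, pow_one]
      push_cast
      ring
    rw [hV] at hw
    have h4 : r' ^ 2 * Cs * A * 1 ≤ r' ^ 2 * Cs * A * (q * X) :=
      mul_le_mul_of_nonneg_left h1q (by positivity)
    have h5 : C₁ * (r ^ 2 * nsq N v) ≤ C₁ * (r ^ 2 * (K0 * A * X)) :=
      mul_le_mul_of_nonneg_left (mul_le_mul_of_nonneg_left hk0 (by positivity)) hC₁0
    have h6 : c / 2 * (δ * nsq N (mulg 1 v) + En N (mulg 1 v) + Pot eps N (mulg 1 v)) ≤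
        (r' ^ 2 * Cs * q + C₁ * (r ^ 2 * K0)) * A * X := by
      calc _ ≤ r' ^ 2 * Cs * A * (q * X) + C₁ * (r ^ 2 * (K0 * A * X)) := by linarith
        _ = _ := by ring
    have h7 := mul_le_mul_of_nonneg_left h6 (by positivity : 0 ≤ 2 / c)
    have h8 : 2 / c * (c / 2 * (δ * nsq N (mulg 1 v) + En N (mulg 1 v) + Pot eps N (mulg 1 v))) =
        δ * nsq N (mulg 1 v) + En N (mulg 1 v) + Pot eps N (mulg 1 v) := by field_simp
    rw [h8] at h7
    refine h7.trans (le_of_eq ?_)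
    rw [hK1]
    ring
  -- k = 2
  have h1δ : 1 ≤ 2 * G.rho / δ := by rw [le_div_iff₀ hδ0]; linarith
  have hk1' : nsq N (mulg 1 v) ≤ K1 * A * X / δ := by
    rw [le_div_iff₀ hδ0]
    have := En_nonneg N (mulg 1 v)
    have := Pot_nonneg heps N (mulg 1 v)
    linarith
  have hk2 : δ * nsq N (mulg 2 v) + En N (mulg 2 v) + Pot eps N (mulg 2 v) ≤ K2 * A * X / δ := by
    set ζ : ℤ → ℝ := fun g => (g : ℝ) ^ 2 with hζ
    set B : ℤ → ℝ := fun g => r * (r + 2) * ‖mulg 1 v g‖ with hB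
    have hB0 : ∀ g, 0 ≤ B g := by
      intro g
      simp only [hB]
      positivity
    have hζB : ∀ g ∈ Icc (1 : ℤ) N, ∀ g' ∈ Icc (1 : ℤ) N, |g' - g| ≤ (G.R : ℤ) →
        |ζ g - ζ g'| * ‖v g'‖ ≤ B g' := by
      intro g hg g' hg' hgg
      rw [Finset.mem_Icc] at hg hg'
      have hg1 : (1 : ℝ) ≤ g := by exact_mod_cast hg.1
      have hg1' : (1 : ℝ) ≤ g' := by exact_mod_cast hg'.1
      have hgg' : |(g : ℝ) - g'| ≤ r := by
        rw [abs_sub_comm, hr]; exact_mod_cast hgg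
      simp only [hB, hζ, mulg, pow_one]
      rw [norm_mul, Complex.norm_intCast, ← mul_assoc]
      refine mul_le_mul_of_nonneg_right ?_ (norm_nonneg _)
      have h1 : (g : ℝ) ^ 2 - (g' : ℝ) ^ 2 = (g - g') * (g + g') := by ring
      rw [h1, abs_mul, abs_of_pos (by linarith : (0 : ℝ) < g + g'), abs_of_pos (by linarith : (0 : ℝ) < g')]
      have h2 : (g : ℝ) + g' ≤ (r + 2) * g' := by
        have := (abs_le.mp hgg').2
        nlinarith
      calc |(g : ℝ) - g'| * (g + g') ≤ r * ((r + 2) * g') :=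
            mul_le_mul hgg' h2 (by linarith) (by linarith)
        _ = _ := by ring
    have hw := weighted hc hCoer heps hz hs he ζ B hB0 hζB
    rw [← hδ, ← hr, ← hC₁] at hw
    have hsrc := source_le hv ζ (r' ^ 4) (by
      intro g hg
      rw [Finset.mem_Icc] at hg
      have hg1 : (1 : ℝ) ≤ g := by exact_mod_cast hg.1
      have hg2 : (g : ℝ) ≤ r' := by rw [hr']; exact_mod_cast hg.2
      have := pow_le_pow_left₀ (by linarith : (0 : ℝ) ≤ g) hg2 4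
      simp only [hζ]
      calc ((g : ℝ) ^ 2) ^ 2 = (g : ℝ) ^ 4 := by ring
        _ ≤ _ := this)
    rw [← hA] at hsrc
    have hBs : ∑ g ∈ Icc (1 : ℤ) N, B g ^ 2 = (r * (r + 2)) ^ 2 * nsq N (mulg 1 v) := by
      unfold nsq
      rw [Finset.mul_sum]
      exact Finset.sum_congr rfl fun g _ => by simp only [hB]; ring
    rw [hBs] at hw
    have hV : (fun g => (ζ g : ℂ) * v g) = mulg 2 v := by
      funext g
      simp only [hζ, mulg]
      push_cast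
      ring
    rw [hV] at hw
    have h4 : r' ^ 4 * Cs * A * 1 ≤ r' ^ 4 * Cs * A * ((q * X) * (2 * G.rho / δ)) := by
      refine mul_le_mul_of_nonneg_left ?_ (by positivity)
      calc (1 : ℝ) = 1 * 1 := by ring
        _ ≤ _ := mul_le_mul h1q h1δ zero_le_one (by positivity)
    have h5 : C₁ * ((r * (r + 2)) ^ 2 * nsq N (mulg 1 v)) ≤
        C₁ * ((r * (r + 2)) ^ 2 * (K1 * A * X / δ)) :=
      mul_le_mul_of_nonneg_left (mul_le_mul_of_nonneg_left hk1' (by positivity)) hC₁0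
    have h6 : c / 2 * (δ * nsq N (mulg 2 v) + En N (mulg 2 v) + Pot eps N (mulg 2 v)) ≤
        (r' ^ 4 * Cs * (q * (2 * G.rho)) + C₁ * ((r * (r + 2)) ^ 2 * K1)) * A * X / δ := by
      calc _ ≤ r' ^ 4 * Cs * A * ((q * X) * (2 * G.rho / δ)) +
            C₁ * ((r * (r + 2)) ^ 2 * (K1 * A * X / δ)) := by linarith
        _ = _ := by ring
    have h7 := mul_le_mul_of_nonneg_left h6 (by positivity : 0 ≤ 2 / c)
    have h8 : 2 / c * (c / 2 * (δ * nsq N (mulg 2 v) + En N (mulg 2 v) + Pot eps N (mulg 2 v))) =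
        δ * nsq N (mulg 2 v) + En N (mulg 2 v) + Pot eps N (mulg 2 v) := by field_simp
    rw [h8] at h7
    refine h7.trans (le_of_eq ?_)
    rw [hK2]
    ring
  have hAX : 0 ≤ A * X := by positivity
  have e1 := En_nonneg N (mulg 1 v)
  have e2 := En_nonneg N (mulg 2 v)
  have p1 := Pot_nonneg heps N (mulg 1 v)
  have p2 := Pot_nonneg heps N (mulg 2 v)
  have n1 := nsq_nonneg N (mulg 1 v)
  have n2 := nsq_nonneg N (mulg 2 v)
  have hk2' : nsq N (mulg 2 v) ≤ K2 * A * X / δ / δ := by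
    rw [le_div_iff₀ hδ0]
    linarith
  constructor
  · intro k hk
    have hform : ∀ (K : ℝ), K ≤ K0 + K1 + K2 + 1 → ∀ y : ℝ, y ≤ K * (A * X / δ ^ k) →
        y ≤ (K0 + K1 + K2 + 1) * A / (t * δ ^ k) := by
      intro K hK y hy
      have h1 : (K0 + K1 + K2 + 1) * A / (t * δ ^ k) = (K0 + K1 + K2 + 1) * (A * X / δ ^ k) := by
        rw [hX]; field_simp
      rw [h1]
      exact hy.trans (mul_le_mul_of_nonneg_right hK (by positivity))
    interval_cases k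
    · refine hform K0 (by linarith) _ ?_
      have : mulg 0 v = v := by funext g; simp [mulg]
      rw [this, pow_zero, div_one]
      linarith
    · refine hform K1 (by linarith) _ ?_
      rw [pow_one]
      refine hk1'.trans (le_of_eq ?_)
      ring
    · refine hform K2 (by linarith) _ ?_
      refine hk2'.trans (le_of_eq ?_)
      field_simp
  · intro k hk1l hk
    have hform : ∀ (K : ℝ), K ≤ K0 + K1 + K2 + 1 → ∀ y : ℝ, y ≤ K * (A * X * δ / δ ^ k) →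
        y ≤ (K0 + K1 + K2 + 1) * A * t / δ ^ k := by
      intro K hK y hy
      have h1 : (K0 + K1 + K2 + 1) * A * t / δ ^ k = (K0 + K1 + K2 + 1) * (A * X * δ / δ ^ k) := by
        have : X * δ = t := by rw [← htt, ← mul_assoc, hXt, one_mul]
        rw [mul_assoc A X δ, this]
        ring
      rw [h1]
      exact hy.trans (mul_le_mul_of_nonneg_right hK (by positivity))
    interval_cases k
    · refine hform K1 (by linarith) _ ?_
      have h1 : K1 * (A * X * δ / δ ^ 1) = K1 * A * X := by field_simp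
      rw [h1]
      have := mul_nonneg hδ0.le n1
      linarith
    · refine hform K2 (by linarith) _ ?_
      have h1 : K2 * (A * X * δ / δ ^ 2) = K2 * A * X / δ := by field_simp
      rw [h1]
      have := mul_nonneg hδ0.le n2
      linarith

end Pool.Agent.Gap
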