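import Pool.Agent.Lib_helper22.Gap.Elem

/-! Module SUP: maximum principle and sup bound. -/

set_option autoImplicit false

open Finset Filter Topology

namespace Pool.Agent.Gap

namespace H22

/-- coercivity with a fixed constant -/
def Coer (G : GapKernel) (c : ℝ) : Prop :=
  ∀ (N : ℕ) (eps : ℝ) (z : ℂ) (f : ℤ → ℂ), 0 ≤ eps → ‖z‖ ≤ G.rho → Supp N f →
    c * (‖(G.rho : ℂ) - z‖ * nsq N f + En N f + Pot eps N f) ≤ ‖form N f (G.Lop eps z N f)‖

lemma eq_zero_of_En {N : ℕ} {f : ℤ → ℂ} (hf : Supp N f) (h : En N f ≤ 0) (g : ℤ) : f g = 0 := by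
  rcases lt_or_ge g 1 with hg | hg
  · exact hf g (Or.inl hg)
  · have h1 := normsq_le_En hf g (by omega)
    have h2 : (0 : ℝ) ≤ g := by exact_mod_cast (by omega : (0 : ℤ) ≤ g)
    have h3 : ‖f g‖ ^ 2 ≤ 0 := h1.trans (mul_nonpos_of_nonneg_of_nonpos h2 h)
    have h4 : ‖f g‖ = 0 := by
      have := sq_nonneg ‖f g‖
      exact pow_eq_zero_iff (two_ne_zero) |>.mp (le_antisymm h3 this)
    exact norm_eq_zero.mp h4

/-- maximum principle for the critical kernel -/
lemma max_principle {G : GapKernel} {c : ℝ} (hc : 0 < c) (hC : Coer G c) (N : ℕ) (y : ℤ → ℝ)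
    (M : ℝ) (hM : 0 ≤ M)
    (hy : ∀ g ∈ Icc (1 : ℤ) N, M < y g → y g ≤ ∑ g' ∈ Icc (1 : ℤ) N, G.Kc g g' * y g') :
    ∀ g ∈ Icc (1 : ℤ) N, y g ≤ M := by
  classical
  set s := Icc (1 : ℤ) N with hs
  let w : ℤ → ℝ := fun g => if g ∈ s then max (y g - M) 0 else 0
  have hw0 : ∀ g, 0 ≤ w g := by
    intro g
    simp only [w]
    split_ifs
    · exact le_max_right _ _
    · exact le_rfl
  have hws : ∀ g ∈ s, w g = max (y g - M) 0 := fun g hg => by simp only [w, if_pos hg]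
  have hwsupp : Supp N (fun g => (w g : ℂ)) := by
    intro g hg
    have : g ∉ s := by
      rw [hs, Finset.mem_Icc]
      omega
    simp only [w, if_neg this, Complex.ofReal_zero]
  -- the quadratic form is nonpositive
  have h1 : ∑ g ∈ s, w g ^ 2 - ∑ g ∈ s, ∑ g' ∈ s, G.Kc g g' * (w g * w g') ≤ 0 := by
    rw [← Finset.sum_sub_distrib]
    refine Finset.sum_nonpos fun g hg => ?_
    have hwg := hws g hg
    rcases le_or_gt (y g) M with hle | hlt
    · have : w g = 0 := by rw [hwg]; exact max_eq_right (by linarith)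
      simp [this]
    · have hwg' : w g = y g - M := by rw [hwg]; exact max_eq_left (by linarith)
      have h2 := hy g hg hlt
      have h3 : ∑ g' ∈ s, G.Kc g g' * y g' ≤ ∑ g' ∈ s, (G.Kc g g' * w g' + G.Kc g g' * M) := by
        refine Finset.sum_le_sum fun g' hg' => ?_
        rw [← mul_add]
        refine mul_le_mul_of_nonneg_left ?_ (G.Kc_nonneg g g')
        have := le_max_left (y g' - M) 0
        rw [← hws g' hg'] at this
        linarith
      rw [Finset.sum_add_distrib, ← Finset.sum_mul] at h3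
      have h4 := G.sum_Kc_le g s
      have h5 : w g ≤ ∑ g' ∈ s, G.Kc g g' * w g' := by
        have : (∑ g' ∈ s, G.Kc g g') * M ≤ 1 * M := mul_le_mul_of_nonneg_right h4 hM
        rw [hwg']
        linarith
      have h6 : ∑ g' ∈ s, G.Kc g g' * (w g * w g') = w g * ∑ g' ∈ s, G.Kc g g' * w g' := by
        rw [Finset.mul_sum]
        exact Finset.sum_congr rfl fun g' _ => by ring
      rw [h6]
      have := mul_le_mul_of_nonneg_left h5 (hw0 g)
      nlinarith
  have h2 : ∑ g ∈ s, ∑ g' ∈ s, G.Kc g g' * (w g * w g') ≤ ∑ g ∈ s, w g ^ 2 := by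
    refine le_trans ?_ (G.schur_kk s w)
    exact Finset.sum_le_sum fun g _ => Finset.sum_le_sum fun g' _ =>
      mul_le_mul_of_nonneg_right (G.Kc_le g g') (mul_nonneg (hw0 g) (hw0 g'))
  have h3 : form N (fun g => (w g : ℂ)) (G.Lop 0 (G.rho : ℂ) N (fun g => (w g : ℂ))) =
      ((∑ g ∈ s, w g ^ 2 - ∑ g ∈ s, ∑ g' ∈ s, G.Kc g g' * (w g * w g') : ℝ) : ℂ) := by
    unfold form GapKernel.Lop GapKernel.Kap
    rw [← Finset.sum_sub_distrib]
    push_cast
    refine Finset.sum_congr rfl fun g _ => ?_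
    rw [mul_sub, Finset.mul_sum, Complex.conj_ofReal]
    congr 1
    · ring
    · refine Finset.sum_congr rfl fun g' _ => ?_
      rw [G.Kz_crit]
      ring
  have h4 := hC N 0 (G.rho : ℂ) (fun g => (w g : ℂ)) le_rfl
    (by rw [Complex.norm_real, Real.norm_eq_abs, abs_of_pos G.rho_pos]) hwsupp
  rw [h3, le_antisymm h1 (by linarith), Complex.ofReal_zero, norm_zero, sub_self, norm_zero,
    zero_mul, zero_add] at h4
  have h5 := Pot_nonneg (le_refl (0 : ℝ)) N (fun g => (w g : ℂ))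
  have h6 : En N (fun g => (w g : ℂ)) ≤ 0 := by
    have h7 : En N (fun g => (w g : ℂ)) + Pot 0 N (fun g => (w g : ℂ)) ≤ 0 := by
      by_contra hcon
      push Not at hcon
      have := mul_pos hc hcon
      linarith
    linarith
  intro g hg
  have h7 := eq_zero_of_En hwsupp h6 g
  have h8 : w g = 0 := by exact_mod_cast h7
  rw [hws g hg] at h8
  have := le_max_left (y g - M) 0
  linarith

lemma form_solves_le {R' N : ℕ} {v e : ℤ → ℂ}
    (he : ∀ g : ℤ, (R' : ℤ) < g → e g = 0) (ζ : ℤ → ℝ) :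
    ‖∑ g ∈ Icc (1 : ℤ) N, ((ζ g : ℂ)) ^ 2 * ((starRingEnd ℂ) (v g) * e g)‖
      ≤ ∑ g ∈ Icc (1 : ℤ) R', ζ g ^ 2 * (‖v g‖ * ‖e g‖) := by
  classical
  have h1 : ∑ g ∈ Icc (1 : ℤ) N, ((ζ g : ℂ)) ^ 2 * ((starRingEnd ℂ) (v g) * e g) =
      ∑ g ∈ (Icc (1 : ℤ) R').filter (fun g => g ∈ Icc (1 : ℤ) N),
        ((ζ g : ℂ)) ^ 2 * ((starRingEnd ℂ) (v g) * e g) := by
    have h2 : (Icc (1 : ℤ) R').filter (fun g => g ∈ Icc (1 : ℤ) N) =
        (Icc (1 : ℤ) N).filter (fun g => g ∈ Icc (1 : ℤ) R') := by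
      ext g
      simp only [Finset.mem_filter]
      tauto
    rw [h2, Finset.sum_filter]
    refine Finset.sum_congr rfl fun g hg => ?_
    split_ifs with h
    · rfl
    · rw [Finset.mem_Icc] at h hg
      rw [he g (by omega), mul_zero, mul_zero]
  rw [h1]
  refine (norm_sum_le _ _).trans ?_
  refine (Finset.sum_le_sum_of_subset_of_nonneg (Finset.filter_subset _ _)
    fun _ _ _ => norm_nonneg _).trans (Finset.sum_le_sum fun g _ => ?_)
  rw [norm_mul, norm_mul, norm_pow, Complex.norm_real, Real.norm_eq_abs, sq_abs,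
    RCLike.norm_conj]

lemma form_eq {G : GapKernel} {N : ℕ} {eps : ℝ} {z : ℂ} {v e : ℤ → ℂ}
    (hs : G.Solves eps z N v e) :
    form N v (G.Lop eps z N v) =
      ∑ g ∈ Icc (1 : ℤ) N, (((1 : ℝ) : ℂ)) ^ 2 * ((starRingEnd ℂ) (v g) * e g) := by
  unfold form
  refine Finset.sum_congr rfl fun g hg => ?_
  rw [hs.2 g hg]
  simp

/-- energy bound -/
lemma energy_le {G : GapKernel} {c : ℝ} (hc : 0 < c) (hC : Coer G c) {R' N : ℕ} {eps : ℝ} {z : ℂ}
    {v e : ℤ → ℂ} (heps : 0 ≤ eps) (hz : ‖z‖ ≤ G.rho) (hs : G.Solves eps z N v e)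
    (he : ∀ g : ℤ, (R' : ℤ) < g → e g = 0) :
    En N v + Pot eps N v ≤ R' / c ^ 2 * l1 R' e ^ 2 ∧
    ∀ g ∈ Icc (1 : ℤ) R', ‖v g‖ ≤ R' / c * l1 R' e := by
  have hsupp : Supp N v := hs.1
  set D := En N v + Pot eps N v with hD
  have hE := En_nonneg N v
  have hP := Pot_nonneg heps N v
  have hD0 : 0 ≤ D := by linarith
  have hl := l1_nonneg R' e
  have hvg : ∀ g ∈ Icc (1 : ℤ) R', ‖v g‖ ≤ Real.sqrt (R' * D) := by
    intro g hg
    rw [Finset.mem_Icc] at hg
    apply Real.le_sqrt_of_sq_le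
    refine (normsq_le_En hsupp g (by omega)).trans ?_
    have h1 : (g : ℝ) ≤ R' := by exact_mod_cast hg.2
    exact mul_le_mul h1 (by linarith) hE (Nat.cast_nonneg _)
  have h1 : c * D ≤ Real.sqrt (R' * D) * l1 R' e := by
    have h2 := hC N eps z v heps hz hsupp
    rw [form_eq hs] at h2
    have h3 := form_solves_le (N := N) (v := v) he (fun _ => (1 : ℝ))
    have h4 : 0 ≤ ‖(G.rho : ℂ) - z‖ * nsq N v := mul_nonneg (norm_nonneg _) (nsq_nonneg N v)
    have h5 : c * D ≤ c * (‖(G.rho : ℂ) - z‖ * nsq N v + En N v + Pot eps N v) :=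
      mul_le_mul_of_nonneg_left (by linarith) hc.le
    refine (h5.trans h2).trans (h3.trans ?_)
    rw [l1, Finset.mul_sum]
    refine Finset.sum_le_sum fun g hg => ?_
    rw [one_pow, one_mul]
    exact mul_le_mul_of_nonneg_right (hvg g hg) (norm_nonneg _)
  have hsq : Real.sqrt (R' * D) ^ 2 = R' * D := Real.sq_sqrt (mul_nonneg (Nat.cast_nonneg _) hD0)
  have h2 : D ≤ R' / c ^ 2 * l1 R' e ^ 2 := by
    rcases hD0.eq_or_lt with h0 | h0
    · rw [← h0]; positivity
    · have h3 : (c * D) ^ 2 ≤ (Real.sqrt (R' * D) * l1 R' e) ^ 2 :=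
        pow_le_pow_left₀ (mul_nonneg hc.le hD0) h1 2
      rw [mul_pow, mul_pow, hsq] at h3
      have h4 : c ^ 2 * D ≤ R' * l1 R' e ^ 2 := by
        have h5 : D * (c ^ 2 * D) ≤ D * (R' * l1 R' e ^ 2) := by nlinarith
        exact le_of_mul_le_mul_left h5 h0
      rw [div_mul_eq_mul_div, le_div_iff₀ (by positivity)]
      linarith
  refine ⟨h2, fun g hg => (hvg g hg).trans ?_⟩
  apply Real.sqrt_le_iff.mpr
  refine ⟨by positivity, ?_⟩
  calc (R' : ℝ) * D ≤ R' * (R' / c ^ 2 * l1 R' e ^ 2) :=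
        mul_le_mul_of_nonneg_left h2 (Nat.cast_nonneg _)
    _ = (R' / c * l1 R' e) ^ 2 := by ring

end H22

/-- MODULE SUP -/
theorem SUP (hC : C_Stmt) : SUP_Stmt := by
  intro G R'
  obtain ⟨c, hc, hC⟩ := hC G
  have hC' : H22.Coer G c := hC
  refine ⟨R' / c + R' / c ^ 2 + 1, by positivity, ?_⟩
  intro N eps z v e heps hz hs he
  obtain ⟨h1, h2⟩ := H22.energy_le hc hC' heps hz hs he
  have hl := H22.l1_nonneg R' e
  set M := R' / c * l1 R' e with hM
  have hM0 : 0 ≤ M := by positivity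
  have hmax := H22.max_principle hc hC' N (fun g => ‖v g‖) M hM0 (by
    intro g hg hlt
    have hgR : (R' : ℤ) < g := by
      by_contra hcon
      push Not at hcon
      rw [Finset.mem_Icc] at hg
      exact absurd (h2 g (Finset.mem_Icc.mpr ⟨hg.1, hcon⟩)) (not_le.mpr hlt)
    have h3 := hs.2 g hg
    rw [he g hgR, GapKernel.Lop, sub_eq_zero] at h3
    rw [h3]
    refine (norm_sum_le _ _).trans (Finset.sum_le_sum fun g' hg' => ?_)
    rw [norm_mul]
    rw [Finset.mem_Icc] at hg hg'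
    exact mul_le_mul_of_nonneg_right (G.norm_Kz_le heps hz g g' (by omega) (by omega))
      (norm_nonneg _))
  have hCM : M ≤ (R' / c + R' / c ^ 2 + 1) * l1 R' e := by
    rw [hM]
    refine mul_le_mul_of_nonneg_right ?_ hl
    have : (0 : ℝ) ≤ R' / c ^ 2 := by positivity
    linarith
  refine ⟨fun g => ?_, h1.trans ?_⟩
  · by_cases hg : g ∈ Icc (1 : ℤ) N
    · exact (hmax g hg).trans hCM
    · rw [Finset.mem_Icc] at hg
      rw [hs.1 g (by omega), norm_zero]
      exact hM0.trans hCM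
  · refine mul_le_mul_of_nonneg_right ?_ (sq_nonneg _)
    have : (0 : ℝ) ≤ R' / c := by positivity
    linarith

end Pool.Agent.Gap
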